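import Pool.Agent.N922.PY.Stm
import Pool.Agent.Y723.HJ.Map
import Pool.Agent.Y723.HJ.Cls

/-!
# Divisors of degree at most two which reduce to a multiple of a nonsingular point
-/

set_option autoImplicit false

open Polynomial

namespace Pool.Agent.N519.PY.PT

open Pool.Agent.N922.PY
open Pool.Agent.Y723.HJ

/-- coprimality can be checked modulo two -/
theorem cop2 {u e : ℤ_[2][X]} (hu : u.Monic) (h : IsCoprime (r2 u) (r2 e)) : IsCoprime u e := by
  rw [← isUnit_resultant_iff_isCoprime hu]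
  have h1 := resultant_ne_zero _ _ h
  have h2 : (r2 u).natDegree = u.natDegree := hu.natDegree_map _
  obtain ⟨k, hk⟩ := Nat.exists_eq_add_of_le
    (natDegree_map_le (f := PadicInt.toZMod (p := 2)) (p := e))
  have h3 := resultant_map_map u e u.natDegree e.natDegree (PadicInt.toZMod (p := 2))
  have h4 : resultant (r2 u) (r2 e) u.natDegree e.natDegree = resultant (r2 u) (r2 e) := by
    rw [hk, resultant_add_right_deg _ _ _ _ _ le_rfl, ← h2, (hu.map _).coeff_natDegree, one_pow,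
      one_mul]
  rw [h4] at h3
  by_contra hun
  have h5 : resultant u e ∈ IsLocalRing.maximalIdeal ℤ_[2] :=
    (IsLocalRing.mem_maximalIdeal _).2 hun
  rw [← PadicInt.ker_toZMod, RingHom.mem_ker] at h5
  exact h1 (h3.trans h5)

theorem r2_f {f : ℤ_[2][X]} (hf : Good f) : r2 f = X ^ 5 + X ^ 3 + X ^ 2 + X + 1 := by
  have h1 : r2 f = f0.map (Int.castRingHom (ZMod 2)) := by
    refine Polynomial.ext fun j => ?_
    rw [coeff_map, coeff_map]
    obtain ⟨t, ht⟩ := hf.four j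
    have h2 := congrArg (PadicInt.toZMod (p := 2)) ht
    rw [map_sub, map_mul, map_intCast] at h2
    have h4 : PadicInt.toZMod (p := 2) 4 = 0 := by
      rw [map_ofNat]
      decide
    rw [h4, zero_mul, sub_eq_zero] at h2
    rw [h2]
    rfl
  rw [h1, f0]
  simp

theorem der_ne {f : ℤ_[2][X]} (hf : Good f) (c : ZMod 2) : (derivative (r2 f)).eval c ≠ 0 := by
  rw [r2_f hf]
  simp only [derivative_add, derivative_X_pow, derivative_X, derivative_one, eval_add, eval_mul,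
    eval_pow, eval_X, eval_one, eval_zero, eval_C]
  revert c
  decide

theorem sq_not_dvd {g : (ZMod 2)[X]} {c : ZMod 2} (h : (derivative g).eval c ≠ 0) :
    ¬ (X - C c) ^ 2 ∣ g := by
  rintro ⟨q, rfl⟩
  apply h
  rw [derivative_mul, derivative_pow]
  simp

/-- integrality of an element of `ℚ_2` with integral square -/
theorem intg {x : ℚ_[2]} {z : ℤ_[2]} (h : x ^ 2 = algebraMap ℤ_[2] ℚ_[2] z) :
    ∃ x' : ℤ_[2], algebraMap ℤ_[2] ℚ_[2] x' = x := by
  have h1 : ‖x‖ ^ 2 ≤ 1 := by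
    rw [← norm_pow, h]
    exact z.2
  have h2 : ‖x‖ ≤ 1 := by
    by_contra h3
    push Not at h3
    nlinarith
  exact ⟨⟨x, h2⟩, rfl⟩

theorem inj : Function.Injective (algebraMap ℤ_[2] ℚ_[2]) := Subtype.coe_injective

/-- the construction of the good representative -/
theorem nice_of {f : ℤ_[2][X]} [HF (fK f)] {u : ℤ_[2][X]} {w : ℚ_[2][X]} (hu : u.Monic)
    (h : u.map (algebraMap ℤ_[2] ℚ_[2]) ∣ fK f - w ^ 2) (A b e : ℤ_[2][X])
    (h1 : u.map (algebraMap ℤ_[2] ℚ_[2]) ∣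
      A.map (algebraMap ℤ_[2] ℚ_[2]) + w * b.map (algebraMap ℤ_[2] ℚ_[2]))
    (h2 : A ^ 2 - b ^ 2 * f = u * e) (h3 : IsCoprime u e) :
    Nice f (cl (mi (fK f) (u.map (algebraMap ℤ_[2] ℚ_[2])) w)) := by
  obtain ⟨m', e', h4⟩ := h3
  refine ⟨mi (fK f) (u.map (algebraMap ℤ_[2] ℚ_[2])) w, u, ⟨e', 0⟩ * ⟨0, b⟩ * ⟨A, b⟩,
    mi_ne (hu.map _).ne_zero, rfl, hu, nm_mi (hu.map _) h, ?_⟩
  have key : (⟨u, 0⟩ + 2 * (⟨e', 0⟩ * ⟨0, b⟩ * ⟨A, b⟩) : AA f) =
      ⟨e', 0⟩ * ⟨A, b⟩ ^ 2 - ⟨u, 0⟩ ^ 2 * ⟨-m', 0⟩ := by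
    rw [two_mul, pow_two, pow_two]
    refine QuadraticAlgebra.ext ?_ ?_
    · simp only [QuadraticAlgebra.re_add, QuadraticAlgebra.re_mul, QuadraticAlgebra.im_mul,
        QuadraticAlgebra.re_sub]
      linear_combination (-e') * h2 - u * h4
    · simp only [QuadraticAlgebra.im_add, QuadraticAlgebra.re_mul, QuadraticAlgebra.im_mul,
        QuadraticAlgebra.im_sub]
      ring
  have hpi : toK f (⟨A, b⟩ : AA f) ∈ mi (fK f) (u.map (algebraMap ℤ_[2] ℚ_[2])) w :=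
    (mem_mi h _).2 h1
  have hu' : toK f (⟨u, 0⟩ : AA f) ∈ mi (fK f) (u.map (algebraMap ℤ_[2] ℚ_[2])) w := by
    refine (mem_mi h _).2 ?_
    change u.map (algebraMap ℤ_[2] ℚ_[2]) ∣ u.map (algebraMap ℤ_[2] ℚ_[2]) +
      w * (0 : ℤ_[2][X]).map (algebraMap ℤ_[2] ℚ_[2])
    rw [Polynomial.map_zero, mul_zero, add_zero]
  rw [key, map_sub, map_mul, map_mul, map_pow, map_pow]
  exact Ideal.sub_mem _ (Ideal.mul_mem_left _ _ (Ideal.pow_mem_pow hpi 2))
    (Ideal.mul_mem_right _ _ (Ideal.pow_mem_pow hu' 2))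

/-- degree one -/
theorem case1 {f : ℤ_[2][X]} [HF (fK f)] (hf : Good f) {u : ℤ_[2][X]} {w : ℚ_[2][X]} {c : ZMod 2}
    (hu : u.Monic) (hd : u.natDegree = 1) (hr : r2 u = X - C c)
    (h : u.map (algebraMap ℤ_[2] ℚ_[2]) ∣ fK f - w ^ 2) :
    Nice f (cl (mi (fK f) (u.map (algebraMap ℤ_[2] ℚ_[2])) w)) := by
  obtain ⟨a, ha⟩ : ∃ a : ℤ_[2], u = X - C a := by
    refine ⟨-u.coeff 0, ?_⟩
    rw [C_neg, sub_neg_eq_add]
    exact hu.eq_X_add_C hd
  have haK : u.map (algebraMap ℤ_[2] ℚ_[2]) = X - C (algebraMap ℤ_[2] ℚ_[2] a) := by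
    rw [ha]
    simp
  have h1 : w.eval (algebraMap ℤ_[2] ℚ_[2] a) ^ 2 = algebraMap ℤ_[2] ℚ_[2] (f.eval a) := by
    rw [haK, dvd_iff_isRoot, IsRoot.def, eval_sub, eval_pow, eval_map_algebraMap, aeval_algebraMap_apply_eq_algebraMap_eval] at h
    exact (sub_eq_zero.1 h).symm
  obtain ⟨y, hy⟩ := intg h1
  have hy2 : y ^ 2 = f.eval a := by
    apply inj
    rw [map_pow, hy, h1]
  obtain ⟨q, hq⟩ := X_sub_C_dvd_sub_C_eval (p := f) (a := a)
  refine nice_of hu h (-C y) 1 (-q) ?_ ?_ ?_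
  · have h2 := X_sub_C_dvd_sub_C_eval (p := w) (a := algebraMap ℤ_[2] ℚ_[2] a)
    rw [haK]
    convert h2 using 1
    rw [← hy]
    simp only [Polynomial.map_neg, Polynomial.map_one, Polynomial.map_C]
    ring
  · have h2 : C y ^ 2 = C (f.eval a) := by rw [← C_pow, hy2]
    rw [ha]
    linear_combination h2 - hq
  · apply cop2 hu
    rw [hr, (irreducible_X_sub_C c).coprime_iff_not_dvd]
    intro h2
    have h3 : (X - C c) ^ 2 ∣ r2 f - C (PadicInt.toZMod (p := 2) (f.eval a)) := by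
      have h4 := congrArg (Polynomial.map (PadicInt.toZMod (p := 2))) hq
      rw [Polynomial.map_sub, Polynomial.map_C, Polynomial.map_mul] at h4
      have h5 : (X - C a : ℤ_[2][X]).map (PadicInt.toZMod (p := 2)) = X - C c := by
        rw [← ha]
        exact hr
      rw [h5] at h4
      rw [h4, pow_two]
      refine mul_dvd_mul_left _ ?_
      have h6 : r2 (-q) = -(q.map (PadicInt.toZMod (p := 2))) := Polynomial.map_neg _
      rw [h6, dvd_neg] at h2
      exact h2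
    refine sq_not_dvd (c := c) ?_ h3
    rw [derivative_sub, derivative_C, sub_zero]
    exact der_ne hf c

theorem quad {R : Type} [CommRing R] {u : R[X]} (hu : u.Monic) (hd : u.natDegree = 2) :
    u = X ^ 2 + C (u.coeff 1) * X + C (u.coeff 0) := by
  have h2 : u.coeff 2 = 1 := by
    rw [← hd]
    exact hu.coeff_natDegree
  conv_lhs => rw [u.as_sum_range_C_mul_X_pow, hd, Finset.sum_range_succ, Finset.sum_range_succ,
    Finset.sum_range_succ, Finset.sum_range_zero, h2, C_1]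
  ring

theorem divmod {R : Type} [CommRing R] [Nontrivial R] {u : R[X]} (hu : u.Monic)
    (hd : u.natDegree = 2) (p : R[X]) : ∃ (q : R[X]) (p0 p1 : R), p = u * q + (C p1 * X + C p0) := by
  have h1 : (p %ₘ u).natDegree < u.natDegree := natDegree_modByMonic_lt p hu (by
    rintro rfl
    rw [natDegree_one] at hd
    omega)
  obtain ⟨a, b, hab⟩ := exists_eq_X_add_C_of_natDegree_le_one (p := p %ₘ u) (by omega)
  refine ⟨p /ₘ u, b, a, ?_⟩
  rw [← hab, add_comm]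
  exact (modByMonic_add_div p u).symm

theorem lin_zero {R : Type} [CommRing R] [Nontrivial R] {u : R[X]} (hu : u.Monic)
    (hd : u.natDegree = 2) {a b : R} (h : u ∣ C a * X + C b) : a = 0 ∧ b = 0 := by
  have h1 : C a * X + C b = 0 := by
    by_contra h0
    refine hu.not_dvd_of_natDegree_lt h0 ?_ h
    rw [hd]
    have h2 : (C a * X + C b : R[X]).natDegree ≤ 1 := natDegree_linear_le
    omega
  have h2 := congrArg (fun p => coeff p 1) h1
  have h3 := congrArg (fun p => coeff p 0) h1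
  simp at h2 h3
  exact ⟨h2, h3⟩

/-- degree two -/
theorem case2 {f : ℤ_[2][X]} [HF (fK f)] (hf : Good f) {u : ℤ_[2][X]} {w : ℚ_[2][X]} {c : ZMod 2}
    (hu : u.Monic) (hd : u.natDegree = 2) (hr : r2 u = (X - C c) ^ 2)
    (h : u.map (algebraMap ℤ_[2] ℚ_[2]) ∣ fK f - w ^ 2) :
    Nice f (cl (mi (fK f) (u.map (algebraMap ℤ_[2] ℚ_[2])) w)) := by
  obtain ⟨φ, hφ⟩ : ∃ φ : ℤ_[2] →+* ℚ_[2], φ = algebraMap ℤ_[2] ℚ_[2] := ⟨_, rfl⟩
  have hinj : Function.Injective φ := by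
    rw [hφ]
    exact inj
  obtain ⟨s, hs⟩ : ∃ s, s = u.coeff 1 := ⟨_, rfl⟩
  obtain ⟨t, ht⟩ : ∃ t, t = u.coeff 0 := ⟨_, rfl⟩
  have hu2 : u = X ^ 2 + C s * X + C t := by
    rw [hs, ht]
    exact quad hu hd
  have huK : u.map φ = X ^ 2 + C (φ s) * X + C (φ t) := by
    rw [hu2]
    simp
  have huKm : (u.map φ).Monic := hu.map _
  have huKd : (u.map φ).natDegree = 2 := by rw [hu.natDegree_map, hd]
  obtain ⟨qf, f0, f1, hfq⟩ := divmod hu hd f
  obtain ⟨qw, w0, w1, hwq⟩ := divmod huKm huKd w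
  have hfK : f.map φ = u.map φ * qf.map φ + (C (φ f1) * X + C (φ f0)) := by
    conv_lhs => rw [hfq]
    simp
  have h' : u.map φ ∣ f.map φ - w ^ 2 := by
    rw [hφ]
    exact h
  -- comparison of the remainders
  have hrem : φ f1 - (2 * w0 * w1 - φ s * w1 ^ 2) = 0 ∧ φ f0 - (w0 ^ 2 - φ t * w1 ^ 2) = 0 := by
    apply lin_zero huKm huKd
    obtain ⟨k, hk⟩ := h'
    refine ⟨k - qf.map φ + qw * (u.map φ * qw + 2 * (C w1 * X + C w0)) + C (w1 ^ 2), ?_⟩
    simp only [C_sub, C_mul, C_pow, map_ofNat]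
    linear_combination hk - hfK + (w + u.map φ * qw + (C w1 * X + C w0)) * hwq -
      C w1 ^ 2 * huK
  have e1 : φ f1 = 2 * w0 * w1 - φ s * w1 ^ 2 := sub_eq_zero.1 hrem.1
  have e0 : φ f0 = w0 ^ 2 - φ t * w1 ^ 2 := sub_eq_zero.1 hrem.2
  -- the norm and the trace of `w`
  obtain ⟨μ, hμ⟩ : ∃ μ : ℤ_[2], φ μ = w0 ^ 2 - φ s * w0 * w1 + φ t * w1 ^ 2 := by
    have h1 : (w0 ^ 2 - φ s * w0 * w1 + φ t * w1 ^ 2) ^ 2 =
        algebraMap ℤ_[2] ℚ_[2] (f0 ^ 2 - s * f0 * f1 + t * f1 ^ 2) := by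
      rw [← hφ]
      simp only [map_add, map_sub, map_mul, map_pow]
      rw [e1, e0]
      ring
    obtain ⟨μ, hμ⟩ := intg h1
    exact ⟨μ, by rw [hφ]; rw [hφ] at hμ; exact hμ⟩
  obtain ⟨τ, hτ⟩ : ∃ τ : ℤ_[2], φ τ = 2 * w0 - φ s * w1 := by
    have h1 : (2 * w0 - φ s * w1) ^ 2 =
        algebraMap ℤ_[2] ℚ_[2] (2 * f0 - s * f1 + 2 * μ) := by
      rw [← hφ]
      simp only [map_add, map_sub, map_mul, map_pow, map_ofNat]
      rw [e1, e0, hμ]
      ring
    obtain ⟨τ, hτ⟩ := intg h1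
    exact ⟨τ, by rw [hφ]; rw [hφ] at hτ; exact hτ⟩
  have hτ2 : τ ^ 2 = 2 * f0 - s * f1 + 2 * μ := by
    apply hinj
    simp only [map_add, map_sub, map_mul, map_pow, map_ofNat]
    rw [e1, e0, hμ, hτ]
    ring
  obtain ⟨k, hk⟩ := h'
  have hi : f.map φ + C (φ μ) - C (φ τ) * w =
      u.map φ * (k + qw * (w + (C w1 * X + C w0)) - C (φ τ) * qw + C w1 ^ 2) := by
    rw [hμ, hτ]
    simp only [C_sub, C_mul, C_pow, C_add, map_ofNat]
    linear_combination hk + (w + (C w1 * X + C w0) - (2 * C w0 - C (φ s) * C w1)) * hwq -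
      C w1 ^ 2 * huK
  obtain ⟨A, hA⟩ : ∃ A : ℤ_[2][X], A = f + C μ := ⟨_, rfl⟩
  obtain ⟨b, hb⟩ : ∃ b : ℤ_[2][X], b = -C τ := ⟨_, rfl⟩
  have hAK : A.map φ = f.map φ + C (φ μ) := by
    rw [hA]
    simp
  have hbK : b.map φ = -C (φ τ) := by
    rw [hb]
    simp
  obtain ⟨e, he⟩ : u ∣ A ^ 2 - b ^ 2 * f := by
    rw [← Polynomial.map_dvd_map φ hinj hu]
    refine ⟨(k + qw * (w + (C w1 * X + C w0)) - C (φ τ) * qw + C w1 ^ 2) *
      (f.map φ + C (φ μ) + C (φ τ) * w) - C (φ τ) ^ 2 * k, ?_⟩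
    rw [Polynomial.map_sub, Polynomial.map_pow, Polynomial.map_mul, Polynomial.map_pow, hAK, hbK]
    linear_combination (f.map φ + C (φ μ) + C (φ τ) * w) * hi - C (φ τ) ^ 2 * hk
  refine nice_of hu h A b e ?_ he ?_
  · rw [← hφ, hAK, hbK]
    refine ⟨_, Eq.trans ?_ hi⟩
    ring
  -- modulo two
  have hs0 : PadicInt.toZMod (p := 2) s = 0 := by
    have h1 : derivative (r2 u) = 0 := by
      rw [hr, derivative_pow]
      have h2 : ((2 : ℕ) : ZMod 2) = 0 := by decide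
      rw [h2, C_0, zero_mul, zero_mul]
    have h2 := congrArg (fun p => coeff p 0) h1
    simp only [coeff_derivative, coeff_zero, Nat.cast_zero, zero_add, mul_one, coeff_map] at h2
    rw [hs]
    exact h2
  have h20 : PadicInt.toZMod (p := 2) 2 = 0 := by
    rw [map_ofNat]
    decide
  have hτ0 : PadicInt.toZMod (p := 2) τ = 0 := by
    have h1 := congrArg (PadicInt.toZMod (p := 2)) hτ2
    rw [map_pow, map_add, map_sub, map_mul, map_mul, map_mul, hs0, h20] at h1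
    have h2 : PadicInt.toZMod (p := 2) τ ^ 2 = 0 := by
      rw [h1]
      ring
    exact pow_eq_zero_iff (two_ne_zero) |>.1 h2
  apply cop2 hu
  rw [hr]
  apply IsCoprime.pow_left
  rw [(irreducible_X_sub_C c).coprime_iff_not_dvd]
  rintro ⟨e1', he1⟩
  have hp : Prime (X - C c : (ZMod 2)[X]) := prime_X_sub_C c
  obtain ⟨g, hg⟩ : ∃ g : (ZMod 2)[X], g = r2 f + C (PadicInt.toZMod (p := 2) μ) := ⟨_, rfl⟩
  have hg2 : g ^ 2 = (X - C c) ^ 2 * ((X - C c) * e1') := by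
    have h1 := congrArg (Polynomial.map (PadicInt.toZMod (p := 2))) he
    rw [Polynomial.map_mul, Polynomial.map_sub, Polynomial.map_pow, Polynomial.map_mul,
      Polynomial.map_pow, hA, hb, Polynomial.map_add, Polynomial.map_neg, Polynomial.map_C,
      Polynomial.map_C, hτ0, C_0] at h1
    rw [hg, ← he1, ← hr]
    linear_combination h1
  have hd1 : (X - C c) ∣ g := by
    apply hp.dvd_of_dvd_pow (n := 2)
    rw [hg2]
    exact dvd_mul_of_dvd_right (dvd_mul_right _ _) _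
  obtain ⟨g1, hg1⟩ := hd1
  have hd2 : (X - C c) ∣ g1 := by
    apply hp.dvd_of_dvd_pow (n := 2)
    refine ⟨e1', ?_⟩
    have h1 : (X - C c : (ZMod 2)[X]) ^ 2 * g1 ^ 2 = (X - C c) ^ 2 * ((X - C c) * e1') := by
      rw [← hg2, hg1]
      ring
    exact mul_left_cancel₀ (pow_ne_zero 2 hp.ne_zero) h1
  obtain ⟨g2, hg2'⟩ := hd2
  refine sq_not_dvd (g := g) (c := c) ?_ ⟨g2, by rw [hg1, hg2']; ring⟩
  rw [hg, derivative_add, derivative_C, add_zero]
  exact der_ne hf c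

theorem t_PT : S_PT := by
  intro f _ hf u w c hu hd hr h
  have h3 : u.natDegree = 0 ∨ u.natDegree = 1 ∨ u.natDegree = 2 := by omega
  rcases h3 with h3 | h3 | h3
  · have hu1 : u = 1 := eq_one_of_monic_natDegree_zero hu h3
    subst hu1
    refine nice_of hu h 0 0 0 ?_ ?_ ?_
    · rw [Polynomial.map_one]
      exact one_dvd _
    · ring
    · exact isCoprime_one_left
  · rw [h3, pow_one] at hr
    exact case1 hf hu h3 hr h
  · rw [h3] at hr
    exact case2 hf hu h3 hr h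

end Pool.Agent.N519.PY.PT
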